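import Pool.Agent.U874.FT.C5

/-!
# The frog model on the rooted 4-ary tree is almost surely transient

Full answer of Q2. Vertices are words over `Fin 4`, the root is the empty word, and the frog of the
vertex `v` follows the simple random walk `S v` with `S v 0 = v`. A pair `(v, k)` belongs to the
set in the statement if the frog of `v` is woken at some time and stands at the root at its own
time `k`. The expected number of such pairs is at most `50`, and almost surely it is finite.
-/

set_option autoImplicit false

open MeasureTheory ProbabilityTheory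
open scoped ENNReal

namespace Pool.Agent.Results.MP_2b43a6_pr.TransientOnFourAryTree

/-- In the frog model on the rooted 4-ary tree (one frog per vertex, root frog awake, simple
random walks, woken on first visit) the expected number of visits of the root by woken frogs is at
most `50`; in particular the root is almost surely visited only finitely often. -/
theorem result :
    ∀ (Ω : Type) [MeasurableSpace Ω] (P : Measure Ω) [IsProbabilityMeasure P]
      (ξ : List (Fin 4) → ℕ → Ω → Fin 4 × Fin 5),
      (∀ v k, Measurable (ξ v k)) →
      iIndepFun (fun p : List (Fin 4) × ℕ => ξ p.1 p.2) P →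
      (∀ v k (c : Fin 4 × Fin 5), P (ξ v k ⁻¹' {c}) = 1 / 20) →
      ∀ (S : List (Fin 4) → ℕ → Ω → List (Fin 4)),
      (∀ v ω, S v 0 ω = v) →
      (∀ v k ω, S v (k + 1) ω =
        if S v k ω = [] then [(ξ v k ω).1]
        else if (ξ v k ω).2 = 0 then (S v k ω).tail
        else (ξ v k ω).1 :: S v k ω) →
      ∫⁻ ω, ((Set.encard {p : List (Fin 4) × ℕ |
          (∀ A : Set (List (Fin 4)), [] ∈ A →
              (∀ v ∈ A, ∀ k, S v k ω ∈ A) → p.1 ∈ A) ∧
          S p.1 p.2 ω = []} : ℕ∞) : ℝ≥0∞) ∂P ≤ 50 ∧
      ∀ᵐ ω ∂P, Set.Finite
        {p : List (Fin 4) × ℕ |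
          (∀ A : Set (List (Fin 4)), [] ∈ A →
              (∀ v ∈ A, ∀ k, S v k ω ∈ A) → p.1 ∈ A) ∧
          S p.1 p.2 ω = []} := by
  intro Ω _ P _ ξ hm hi hu S h0 hS
  exact Pool.Agent.U874.FT.transient hm hi hu S h0 fun v k ω => hS v k ω

end Pool.Agent.Results.MP_2b43a6_pr.TransientOnFourAryTree
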